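import Mathlib

namespace Pool.Agent.Results.MP_41e757_co.Skew
open Finset Classical

/-- There is a skew `t`-family of length `m` over the alphabet `X`. -/
def SkewFamily (X : Type) (t m : ℕ) : Prop :=
  ∃ (n : ℕ) (a b : Fin m → Fin n → X), t + 1 ≤ n ∧
    (∀ i, t + 1 ≤ Set.ncard {k | a i k ≠ b i k}) ∧
    ∀ i j, i < j → Set.ncard {k | a i k ≠ b j k} ≤ t

abbrev G (s : ℕ) := Fin s → ZMod 2

section
variable {R : Type} [CommRing R] {s : ℕ}

noncomputable def y (R : Type) [CommRing R] (i : Fin s) : AddMonoidAlgebra R (G s) :=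
  AddMonoidAlgebra.single (Pi.single i 1) 1 + 1

noncomputable def lin (p : Fin s → R) : AddMonoidAlgebra R (G s) := ∑ i, p i • y R i

def Dg (d : ℕ) (f : AddMonoidAlgebra R (G s)) : Prop := ∀ g, f.coeff g ≠ 0 → hammingNorm g ≤ d

lemma norm_add (g h : G s) : hammingNorm (g + h) ≤ hammingNorm g + hammingNorm h := by
  unfold hammingNorm
  refine le_trans (card_le_card ?_) (card_union_le _ _)
  intro i hi
  simp only [mem_filter, mem_univ, true_and, mem_union, Pi.add_apply] at hi ⊢
  by_contra hc
  push Not at hc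
  exact hi (by rw [hc.1, hc.2, add_zero])

lemma Dg.mul {d e : ℕ} {f h : AddMonoidAlgebra R (G s)} (hf : Dg d f) (hh : Dg e h) :
    Dg (d + e) (f * h) := by
  intro g hg
  obtain ⟨u, hu, v, hv, rfl⟩ := Finset.mem_add.1
    (AddMonoidAlgebra.support_coeff_mul_subset f h (Finsupp.mem_support_iff.2 hg))
  exact (norm_add u v).trans
    (add_le_add (hf u (Finsupp.mem_support_iff.1 hu)) (hh v (Finsupp.mem_support_iff.1 hv)))

lemma Dg.add {d : ℕ} {f h : AddMonoidAlgebra R (G s)} (hf : Dg d f) (hh : Dg d h) :
    Dg d (f + h) := by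
  intro g hg
  by_cases h1 : f.coeff g = 0
  · exact hh g (by simpa [h1] using hg)
  · exact hf g h1

lemma Dg.smul {d : ℕ} {f : AddMonoidAlgebra R (G s)} (c : R) (hf : Dg d f) : Dg d (c • f) := by
  intro g hg
  refine hf g fun h => hg ?_
  simp [h]

lemma Dg_single (g : G s) (c : R) (d : ℕ) (h : hammingNorm g ≤ d) :
    Dg d (AddMonoidAlgebra.single g c) := by
  intro g' hg
  rw [AddMonoidAlgebra.coeff_single, Finsupp.single_apply] at hg
  split_ifs at hg with e
  · exact e ▸ h
  · exact absurd rfl hg

lemma Dg_one (d : ℕ) : Dg d (1 : AddMonoidAlgebra R (G s)) :=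
  Dg_single 0 1 d (by simp)

lemma norm_single (i : Fin s) : hammingNorm (Pi.single i 1 : G s) ≤ 1 := by
  unfold hammingNorm
  rw [card_le_one]
  intro a ha b hb
  simp only [mem_filter, mem_univ, true_and] at ha hb
  have h1 : a = i := by by_contra h; exact ha (Pi.single_eq_of_ne h _)
  have h2 : b = i := by by_contra h; exact hb (Pi.single_eq_of_ne h _)
  rw [h1, h2]

lemma Dg_y (i : Fin s) : Dg 1 (y R i) := (Dg_single _ _ _ (norm_single i)).add (Dg_one 1)

lemma Dg_lin (p : Fin s → R) : Dg 1 (lin p) := by
  unfold lin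
  refine Finset.sum_induction _ (Dg 1) (fun _ _ => Dg.add) (fun g hg => by simp at hg) ?_
  exact fun i _ => (Dg_y i).smul _

lemma Dg_prod {ι : Type} (D : Finset ι) (f : ι → AddMonoidAlgebra R (G s))
    (h : ∀ k, Dg 1 (f k)) : Dg D.card (∏ k ∈ D, f k) := by
  induction D using Finset.induction_on with
  | empty => simpa using Dg_one 0
  | insert k D hk ih =>
    rw [prod_insert hk, card_insert_of_notMem hk, add_comm]
    exact (h k).mul ih

lemma lin_sq [CharP R 2] (p : Fin s → R) : lin p * lin p = 0 := by
  haveI : CharP (AddMonoidAlgebra R (G s)) 2 := by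
    refine charP_of_injective_algebraMap (R := R) (fun a b h => ?_) 2
    have := congrArg (fun f : AddMonoidAlgebra R (G s) => f.coeff 0) h
    simpa using this
  unfold lin
  rw [CharTwo.sum_mul_self]
  refine sum_eq_zero fun i _ => ?_
  have : y R i * y R i = 0 := by
    unfold y
    rw [CharTwo.add_mul_self, AddMonoidAlgebra.single_mul_single, mul_one, mul_one]
    have : (Pi.single i 1 : G s) + Pi.single i 1 = 0 := by
      rw [← Pi.single_add]
      have : (1 : ZMod 2) + 1 = 0 := rfl
      rw [this, Pi.single_zero]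
    rw [this, ← AddMonoidAlgebra.one_def, CharTwo.add_self_eq_zero]
  rw [smul_mul_smul_comm, this, smul_zero]

noncomputable def A {n : ℕ} (p : Fin n → Fin s → R) (c : Fin n → R) : AddMonoidAlgebra R (G s) :=
  ∏ k, (1 + c k • lin (p k))

lemma A_mul [CharP R 2] {n : ℕ} (p : Fin n → Fin s → R) (c c' : Fin n → R) :
    A p c * A p c' = A p (c + c') := by
  unfold A
  rw [← prod_mul_distrib]
  refine prod_congr rfl fun k _ => ?_
  rw [add_mul, mul_add, mul_add, smul_mul_smul_comm, lin_sq, Pi.add_apply, add_smul]
  simp only [mul_one, one_mul, smul_zero, add_zero]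
  abel

lemma A_top_zero {n : ℕ} (p : Fin n → Fin s → R) (c : Fin n → R)
    (h : (univ.filter (fun k => c k ≠ 0)).card < s) : (A p c).coeff (fun _ => 1) = 0 := by
  have e : A p c = ∏ k ∈ univ.filter (fun k => c k ≠ 0), (1 + c k • lin (p k)) := by
    unfold A
    refine (prod_subset (filter_subset _ _) fun k _ hk => ?_).symm
    have : c k = 0 := by simpa using hk
    simp [this]
  by_contra hc
  have h1 := Dg_prod (univ.filter (fun k => c k ≠ 0)) (fun k => 1 + c k • lin (p k))
    (fun k => (Dg_one 1).add ((Dg_lin _).smul _)) (fun _ => 1) (e ▸ hc)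
  have h2 : hammingNorm (fun _ => 1 : G s) = s := by simp [hammingNorm]
  omega

lemma top_prod (c : Fin s → R) (I : Finset (Fin s)) :
    (∏ i ∈ I, (1 + c i • y R i)).coeff (fun j => if j ∈ I then 1 else 0) = ∏ i ∈ I, c i := by
  induction I using Finset.induction_on with
  | empty =>
    simp only [prod_empty, notMem_empty, if_false]
    exact Finsupp.single_eq_same
  | insert i I hi ih =>
    rw [prod_insert hi, prod_insert hi]
    set Q := ∏ i ∈ I, (1 + c i • y R i) with hQ
    have h0 : Q.coeff (fun j => if j ∈ insert i I then 1 else 0) = 0 := by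
      by_contra hc
      have h1 := Dg_prod I (fun k => 1 + c k • y R k)
        (fun k => (Dg_one 1).add ((Dg_y _).smul _)) _ hc
      have h2 : hammingNorm (fun j => if j ∈ insert i I then 1 else 0 : G s) = I.card + 1 := by
        rw [← card_insert_of_notMem hi]
        unfold hammingNorm
        congr 1
        ext j
        by_cases hj : j ∈ insert i I <;> simp only [hj, mem_filter, mem_univ, true_and] <;> simp
      omega
    have e : (1 + c i • y R i) * Q =
        Q + c i • (Q * AddMonoidAlgebra.single (Pi.single i 1) 1) + c i • Q := by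
      unfold y
      rw [add_mul, one_mul, smul_mul_assoc, add_mul, one_mul, smul_add, mul_comm _ Q, add_assoc]
    have e2 : (fun j => if j ∈ insert i I then 1 else 0 : G s) =
        (fun j => if j ∈ I then 1 else 0) + Pi.single i 1 := by
      funext j
      by_cases h : j = i
      · subst h; simp [hi]
      · simp [h]
    rw [e]
    simp only [AddMonoidAlgebra.coeff_add, AddMonoidAlgebra.coeff_smul, Finsupp.add_apply,
      Finsupp.smul_apply, h0, smul_zero, zero_add, add_zero, smul_eq_mul]
    rw [e2, AddMonoidAlgebra.coeff_mul_single_add, ih, mul_one, mul_zero, add_zero]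

lemma A_map {R' : Type} [CommRing R'] (φ : R →+* R') {n : ℕ} (p : Fin n → Fin s → R)
    (c : Fin n → R) (g : G s) :
    φ ((A p c).coeff g) = (A (fun k i => φ (p k i)) (fun k => φ (c k))).coeff g := by
  have h : ∀ (r : R) (f : AddMonoidAlgebra R (G s)), AddMonoidAlgebra.mapRingHom (G s) φ (r • f) =
      φ r • AddMonoidAlgebra.mapRingHom (G s) φ f := by
    intro r f
    ext g
    simp
  rw [← AddMonoidAlgebra.coeff_mapRingHom]
  congr 2
  simp only [A, lin, y, map_prod, map_add, map_one, map_sum, h,
    AddMonoidAlgebra.mapRingHom_single]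

lemma A_spec {n : ℕ} (f : Fin s → Fin n) (hf : Function.Injective f) (c : Fin n → R) :
    (A (fun k i => if k = f i then (1 : R) else 0) c).coeff (fun _ => 1) = ∏ i, c (f i) := by
  have e : A (fun k i => if k = f i then (1 : R) else 0) c = ∏ i, (1 + c (f i) • y R i) := by
    unfold A
    rw [← prod_subset (subset_univ (univ.image f)), prod_image (fun _ _ _ _ h => hf h)]
    · refine prod_congr rfl fun i _ => ?_
      simp [lin, hf.eq_iff, ite_smul]
    · intro k _ hk
      have : ∀ i, k ≠ f i := fun i h => hk (mem_image.2 ⟨i, mem_univ _, h.symm⟩)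
      simp [lin, this]
  have := top_prod (fun i => c (f i)) univ
  simp only [mem_univ, if_true] at this
  rw [e, this]

end

lemma upper (X : Type) (t m : ℕ) (h : SkewFamily X t m) : m ≤ 2 ^ (t + 1) := by
  obtain ⟨n, a, b, -, h1, h2⟩ := h
  let R := MvPolynomial ((Fin n × Fin (t + 1)) ⊕ X) (ZMod 2)
  let x : X → R := fun z => MvPolynomial.X (Sum.inr z)
  let p : Fin n → Fin (t + 1) → R := fun k i => MvPolynomial.X (Sum.inl (k, i))
  have hx : ∀ z z', z ≠ z' → x z + x z' ≠ 0 := by
    intro z z' hne e
    have := (CharTwo.add_eq_zero.1 e)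
    exact hne (Sum.inr_injective (MvPolynomial.X_injective this))
  have card : ∀ u v : Fin n → X, Set.ncard {k | u k ≠ v k} = (univ.filter (fun k => u k ≠ v k)).card :=
    fun u v => by rw [← Set.ncard_coe_finset]; congr 1; ext k; simp
  have diag : ∀ j, (A p ((fun k => x (a j k)) + fun k => x (b j k))).coeff (fun _ => 1) ≠ 0 := by
    intro j e
    have h3 := h1 j
    rw [card] at h3
    obtain ⟨f, hf⟩ : ∃ f : Fin (t + 1) ↪ Fin n, ∀ i, a j (f i) ≠ b j (f i) := by
      obtain ⟨f, hf⟩ := Function.Embedding.exists_of_card_le_finset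
        (α := Fin (t + 1)) (s := univ.filter (fun k => a j k ≠ b j k)) (by simpa using h3)
      exact ⟨f, fun i => (mem_filter.1 (hf (Set.mem_range_self i))).2⟩
    let φ : R →+* R := (MvPolynomial.aeval (R := ZMod 2) (Sum.elim
      (fun q : Fin n × Fin (t + 1) => if q.1 = f q.2 then (1 : R) else 0) x)).toRingHom
    have hφ : ∀ q, φ (MvPolynomial.X q) = Sum.elim
        (fun q : Fin n × Fin (t + 1) => if q.1 = f q.2 then (1 : R) else 0) x q :=
      fun q => MvPolynomial.aeval_X _ q
    have h4 := A_map φ p ((fun k => x (a j k)) + fun k => x (b j k)) (fun _ => 1)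
    have e1 : (fun k i => φ (p k i)) = fun k i => if k = f i then (1 : R) else 0 := by
      funext k i; exact hφ _
    rw [e, map_zero, e1, A_spec f f.injective] at h4
    refine prod_ne_zero_iff.2 (fun i _ => ?_) h4.symm
    have : φ (((fun k => x (a j k)) + fun k => x (b j k)) (f i)) =
        x (a j (f i)) + x (b j (f i)) := by
      rw [Pi.add_apply, map_add]
      exact congrArg₂ (· + ·) (hφ _) (hφ _)
    rw [this]
    exact hx _ _ (hf i)
  have off : ∀ i j, i < j →
      (A p ((fun k => x (a i k)) + fun k => x (b j k))).coeff (fun _ => 1) = 0 := by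
    intro i j hij
    refine A_top_zero _ _ (lt_of_le_of_lt (card_le_card ?_) (Nat.lt_succ_of_le (card _ _ ▸ h2 i j hij)))
    intro k hk
    simp only [mem_filter, mem_univ, true_and, Pi.add_apply] at hk ⊢
    intro e
    exact hk (by rw [e, CharTwo.add_self_eq_zero])
  have li : LinearIndependent R (fun i => A p (fun k => x (a i k))) := by
    rw [Fintype.linearIndependent_iff]
    intro c hc
    by_contra hne
    push Not at hne
    obtain ⟨j, hj, hmax⟩ := exists_max_image (univ.filter (fun i => c i ≠ 0)) id
      (hne.imp fun i hi => mem_filter.2 ⟨mem_univ _, hi⟩)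
    have h5 := congrArg (fun F => (F * A p (fun k => x (b j k))).coeff (fun _ => 1)) hc
    simp only [sum_mul, smul_mul_assoc, A_mul, zero_mul, AddMonoidAlgebra.coeff_sum,
      AddMonoidAlgebra.coeff_smul, Finsupp.finsetSum_apply, Finsupp.smul_apply, smul_eq_mul,
      AddMonoidAlgebra.coeff_zero, Finsupp.zero_apply] at h5
    rw [sum_eq_single j] at h5
    · exact mul_ne_zero (mem_filter.1 hj).2 (diag j) h5
    · intro i _ hij
      rcases lt_or_gt_of_ne hij with k | k
      · rw [off i j k, mul_zero]
      · have : c i = 0 := by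
          by_contra hci
          exact absurd (hmax i (mem_filter.2 ⟨mem_univ _, hci⟩)) (not_le.2 k)
        rw [this, zero_mul]
    · simp
  haveI : Module.Finite R (AddMonoidAlgebra R (G (t + 1))) :=
    Module.Finite.of_basis (AddMonoidAlgebra.basis (G (t + 1)) R)
  have h6 := li.fintype_card_le_finrank
  rw [Module.finrank_eq_card_basis (AddMonoidAlgebra.basis (G (t + 1)) R)] at h6
  simpa using h6

lemma lower (X : Type) [Nontrivial X] (t : ℕ) : SkewFamily X t (2 ^ (t + 1)) := by
  obtain ⟨u, v, huv⟩ := exists_pair_ne X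
  let e : Fin (2 ^ (t + 1)) ≃ (Fin (t + 1) → Bool) := (Fintype.equivFinOfCardEq (by simp)).symm
  refine ⟨t + 1, fun i k => if e i k then u else v, fun i k => if e i k then v else u, le_rfl,
    fun i => ?_, fun i j hij => ?_⟩
  · have : {k | (if e i k then u else v) ≠ (if e i k then v else u)} = Set.univ := by
      ext k
      by_cases h : e i k <;> simp [h, huv, huv.symm]
    rw [this]; simp
  · obtain ⟨k, hk⟩ := Function.ne_iff.1 (e.injective.ne hij.ne)
    have h1 : {k | (if e i k then u else v) ≠ (if e j k then v else u)} ⊆ {k}ᶜ := by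
      rintro l hl rfl
      apply hl
      cases h : e i l <;> cases h' : e j l <;> simp_all
    have h2 := Set.ncard_le_ncard h1
    have h3 := Set.ncard_add_ncard_compl ({k} : Set (Fin (t + 1)))
    simp only [Set.ncard_singleton, Nat.card_eq_fintype_card, Fintype.card_fin] at h3
    exact le_trans h2 (by omega)

theorem result (X : Type) [Nontrivial X] (t : ℕ) :
    IsGreatest {m | SkewFamily X t m} (2 ^ (t + 1)) :=
  ⟨lower X t, fun m hm => upper X t m hm⟩

end Pool.Agent.Results.MP_41e757_co.Skew
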